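import Mathlib
import Pool.Agent.X130.TD.Mem

set_option autoImplicit false

/-!
# Deciding equality of the total and the sub-total domination number is NP-complete

The reduction is from exact cover by 3-sets. Let `T` be a list of `m` triples of elements of
`{0, …, 3q-1}`, `1 ≤ q ≤ m`. The graph has a vertex for every triple, `m` copies of every element, a hub
adjacent to all triples, and a pendant vertex adjacent to the hub; a triple is adjacent to all copies of
its elements. It has `n = 2 + m + 3 q m` vertices, the triples have degree `3 m + 1`, the hub has degree
`m + 1` and the other degrees are at most `3 m`. Hence the sub-total domination number is `q + 1`. A total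
dominating set contains the hub, and triples which cover all elements, so the total domination number is
at least `q + 1`, with equality iff there is an exact cover.
-/

namespace Pool.Agent.Results.MP_bfbf95_lc.TDSEqNPComplete

open Pool.Agent.NPC Pool.Agent.X130.TD

/-- TDS-EQ is `NP`-complete (in `NP`, and `NP`-hard under polynomial-time many-one reductions). -/
theorem result : InNPP TDSEQ ∧ NPHardP TDSEQ := ⟨mem, hard⟩

end Pool.Agent.Results.MP_bfbf95_lc.TDSEqNPComplete
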